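import Pool.Agent.P.MP_f9a7a1_al.Main

set_option autoImplicit false

open Pool.Agent.P.MP_f9a7a1_al

/-- The group algebra of `S₃ × C₃` in characteristic three, right modules. -/
theorem Pool.Agent.Results.MP_f9a7a1_al.BlockCounterexample.result
    (k : Type) [Field k] [CharP k 3] :
    (∀ I J : TwoSidedIdeal (MonoidAlgebra k (Equiv.Perm (Fin 3) × Multiplicative (ZMod 3))),
      IsCompl I J → I = ⊥ ∨ J = ⊥) ∧
    ¬IsSemisimpleRing (MonoidAlgebra k (Equiv.Perm (Fin 3) × Multiplicative (ZMod 3))) ∧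
    ∃ M : ModuleCat.{0} (MonoidAlgebra k (Equiv.Perm (Fin 3) × Multiplicative (ZMod 3)))ᵐᵒᵖ,
      Module.Finite (MonoidAlgebra k (Equiv.Perm (Fin 3) × Multiplicative (ZMod 3)))ᵐᵒᵖ M ∧
      ¬Module.Projective (MonoidAlgebra k (Equiv.Perm (Fin 3) × Multiplicative (ZMod 3)))ᵐᵒᵖ M ∧
      ∀ S : ModuleCat.{0} (MonoidAlgebra k (Equiv.Perm (Fin 3) × Multiplicative (ZMod 3)))ᵐᵒᵖ,
        IsSimpleModule (MonoidAlgebra k (Equiv.Perm (Fin 3) × Multiplicative (ZMod 3)))ᵐᵒᵖ S →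
          phi S < phi M :=
  Pool.Agent.P.MP_f9a7a1_al.main k
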