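import Pool.Agent.P.MP_f9a7a1_al.FrMain

set_option autoImplicit false

open Pool.Agent.P.MP_f9a7a1_al

/-- The group of the maps `x ↦ a ^ 2 * x + b` of a field with `p ^ 2` elements, right modules. -/
theorem Pool.Agent.Results.MP_f9a7a1_al.FrobeniusGroups.result
    (p : ℕ) (hp : p.Prime) (h5 : 5 ≤ p) (F : Type) [Field F] [Finite F]
    (hF : Nat.card F = p ^ 2) (k : Type) [Field k] [Algebra F k] (G : Subgroup (Equiv.Perm F))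
    (hG : ∀ σ : Equiv.Perm F, σ ∈ G ↔ ∃ a b : F, a ≠ 0 ∧ ∀ x, σ x = a ^ 2 * x + b) :
    (∀ I J : TwoSidedIdeal (MonoidAlgebra k G), IsCompl I J → I = ⊥ ∨ J = ⊥) ∧
    ¬IsSemisimpleRing (MonoidAlgebra k G) ∧
    (∀ S : ModuleCat.{0} (MonoidAlgebra k G)ᵐᵒᵖ, IsSimpleModule (MonoidAlgebra k G)ᵐᵒᵖ S →
      phi S = (2 * p - 4 : ℕ)) ∧
    ∃ M : ModuleCat.{0} (MonoidAlgebra k G)ᵐᵒᵖ, Module.Finite (MonoidAlgebra k G)ᵐᵒᵖ M ∧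
      ¬Module.Projective (MonoidAlgebra k G)ᵐᵒᵖ M ∧ phi M = (2 * p - 2 : ℕ) :=
  Pool.Agent.P.MP_f9a7a1_al.Fr.main p hp h5 F hF k G hG
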